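import Pool.Agent.HUK.StmtsA

/-! Squad HUK, row SBU. -/

set_option autoImplicit false

namespace Pool.Agent.HUK.H39U

open Polynomial NumberField Matrix Pool.Agent.MTL Pool.Agent.MTL.H34 Pool.Agent.Helper78_MT
  Pool.Agent.HIK Pool.Agent.HIP Pool.Agent.MTPN Pool.Agent.MTN

theorem sua (sbv : SvaStmt) : SuaStmt := by
  intro H hH d _ _ ℓ _ ρ hρ
  obtain ⟨S, hS, hS2⟩ := sbv H hH d ℓ ρ hρ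
  refine ⟨S, hS, fun π hπ ρs hsp => ⟨?_, ?_⟩⟩
  · rintro g ⟨τ, rfl⟩
    obtain ⟨σ, hσ, h1⟩ := τ.2
    exact ⟨⟨σ, hσ⟩, (hsp ⟨σ, hσ⟩ τ h1).symm⟩
  · obtain ⟨Γ, hΓ, hΓ2⟩ := hS2 π hπ
    refine ⟨Γ, hΓ, ?_⟩
    rintro g ⟨γ, hγ, rfl⟩
    obtain ⟨σ, hσ, hσ2⟩ := hΓ2 γ hγ
    obtain ⟨τ, hτ⟩ := hσ
    rw [← hσ2]
    exact ⟨⟨τ, σ, σ.2, hτ⟩, hsp σ ⟨τ, σ, σ.2, hτ⟩ hτ⟩

end Pool.Agent.HUK.H39U
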